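import Mathlib.LinearAlgebra.FiniteDimensional.Defs
import Mathlib.Topology.GDelta.MetrizableSpace
import Mathlib.Analysis.Normed.Operator.Basic
import Mathlib.Analysis.InnerProductSpace.Basic
import Mathlib.Analysis.Normed.Lp.lpSpace
import Mathlib.Order.CompletePartialOrder

/-!
Definitions for the problem on aleph-injectivity of ultraproducts over good ultrafilters.
-/

set_option autoImplicit false

universe u

namespace Pool.Agent.MP_17402e_an

open Filter Topology
open scoped ENNReal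

/-- Density character: the least cardinality of a dense subset. -/
noncomputable def densChar (X : Type u) [TopologicalSpace X] : Cardinal.{u} :=
  sInf {c | ∃ D : Set X, Dense D ∧ Cardinal.mk D = c}

/-- `E` is `ℵ`-injective: every operator from a closed subspace of a Banach space of density
character less than `ℵ` into `E` extends to an operator on the whole space. -/
def AlephInjective (𝕜 : Type) [RCLike 𝕜] (ℵ : Cardinal.{u}) (E : Type u) [NormedAddCommGroup E]
    [NormedSpace 𝕜 E] : Prop :=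
  ∀ (X : Type u) [NormedAddCommGroup X] [NormedSpace 𝕜 X] [CompleteSpace X], densChar X < ℵ →
    ∀ Y : Submodule 𝕜 X, IsClosed (Y : Set X) → ∀ t : Y →L[𝕜] E,
      ∃ T : X →L[𝕜] E, ∀ y : Y, T y = t y

/-- Countably incomplete ultrafilter. -/
def CountablyIncomplete {I : Type u} (U : Ultrafilter I) : Prop :=
  ∃ A : ℕ → Set I, Antitone A ∧ (∀ n, A n ∈ U) ∧ ⋂ n, A n = ∅

open Classical in
/-- `ℵ`-good ultrafilter: for `κ < ℵ`, every monotone map from the finite subsets of `κ` to `U`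
has a multiplicative refinement. -/
def Good {I : Type u} (ℵ : Cardinal.{u}) (U : Ultrafilter I) : Prop :=
  ∀ κ : Cardinal.{u}, κ < ℵ → ∀ f : Finset κ.out → Set I, (∀ s, f s ∈ U) →
    (∀ s t, s ⊆ t → f t ⊆ f s) →
      ∃ g : Finset κ.out → Set I, (∀ s, g s ∈ U) ∧ (∀ s, g s ⊆ f s) ∧
        ∀ s t, g (s ∪ t) = g s ∩ g t

/-- The bounded families whose norms tend to zero along `U`. -/
def c0U (𝕜 : Type) [RCLike 𝕜] {I : Type u} (U : Ultrafilter I) (X : I → Type u)
    [∀ i, NormedAddCommGroup (X i)] [∀ i, NormedSpace 𝕜 (X i)] : Submodule 𝕜 (lp X ∞) where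
  carrier := {x | Tendsto (fun i => ‖x i‖) U (𝓝 0)}
  zero_mem' := by simp
  add_mem' := by
    intro a b ha hb
    have h := Tendsto.add ha hb
    rw [add_zero] at h
    exact squeeze_zero (fun _ => norm_nonneg _) (fun i => norm_add_le _ _) h
  smul_mem' := by
    intro c a ha
    have h := Tendsto.const_mul ‖c‖ ha
    rw [mul_zero] at h
    simpa [norm_smul] using h

instance isClosed_c0U (𝕜 : Type) [RCLike 𝕜] {I : Type u} (U : Ultrafilter I) (X : I → Type u)
    [∀ i, NormedAddCommGroup (X i)] [∀ i, NormedSpace 𝕜 (X i)] :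
    IsClosed (c0U 𝕜 U X : Set (lp X ∞)) := by
  apply isClosed_of_closure_subset
  intro a ha
  show Tendsto (fun i => ‖a i‖) U (𝓝 0)
  rw [Metric.tendsto_nhds]
  intro ε hε
  obtain ⟨b, hb, hab⟩ := Metric.mem_closure_iff.mp ha (ε / 2) (half_pos hε)
  have hb' : Tendsto (fun i => ‖b i‖) U (𝓝 0) := hb
  filter_upwards [Metric.tendsto_nhds.mp hb' (ε / 2) (half_pos hε)] with i hi
  rw [dist_zero_right, norm_norm] at hi ⊢
  have h1 : ‖(a - b) i‖ ≤ ‖a - b‖ := lp.norm_apply_le_norm ENNReal.top_ne_zero _ i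
  rw [dist_eq_norm] at hab
  have h2 : ‖a i‖ ≤ ‖(a - b) i‖ + ‖b i‖ := by
    simpa using norm_add_le ((a - b) i) (b i)
  linarith

/-- The Banach space ultraproduct `ℓ∞(X i) / c0U(X i)` with the quotient norm. -/
abbrev Ultraproduct (𝕜 : Type) [RCLike 𝕜] {I : Type u} (U : Ultrafilter I) (X : I → Type u)
    [∀ i, NormedAddCommGroup (X i)] [∀ i, NormedSpace 𝕜 (X i)] : Type u :=
  lp X ∞ ⧸ c0U 𝕜 U X

/-- Multiplicative Banach-Mazur distance. -/
noncomputable def bmDist (𝕜 : Type) [RCLike 𝕜] (G : Type u) (H : Type) [NormedAddCommGroup G]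
    [NormedSpace 𝕜 G] [NormedAddCommGroup H] [NormedSpace 𝕜 H] : ℝ≥0∞ :=
  ⨅ T : G ≃L[𝕜] H, ‖(T : G →L[𝕜] H)‖ₑ * ‖(T.symm : H →L[𝕜] G)‖ₑ

/-- `E` is a script-L-infinity space; `Fin n → 𝕜` carries the sup norm. -/
def IsLInfty (𝕜 : Type) [RCLike 𝕜] (E : Type u) [NormedAddCommGroup E] [NormedSpace 𝕜 E] : Prop :=
  ∃ lam : ℝ, 1 ≤ lam ∧ ∀ F : Submodule 𝕜 E, FiniteDimensional 𝕜 F →
    ∃ G : Submodule 𝕜 E, F ≤ G ∧ FiniteDimensional 𝕜 G ∧
      bmDist 𝕜 G (Fin (Module.finrank 𝕜 G) → 𝕜) ≤ ENNReal.ofReal lam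

end Pool.Agent.MP_17402e_an
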