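import Mathlib.Tactic.Monotonicity.Lemmas
import Mathlib.Algebra.Order.Ring.Star
import Mathlib.Analysis.RCLike.Lemmas
import Mathlib.Analysis.Normed.Module.HahnBanach
import Pool.Agent.MP_17402e_an.Defs

-- ======== part 0: formerly Pool.Agent.MP_17402e_an.Local
section MrgPart0

/-!
Local extension property of script-L-infinity spaces and norm facts for ultraproducts.
-/

set_option autoImplicit false

universe u

namespace Pool.Agent.MP_17402e_an

open Filter Topology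
open scoped ENNReal

variable {𝕜 : Type} [RCLike 𝕜]

/-- Local extension: a uniform constant `C` such that an operator into `E` restricted to finitely
many vectors of `Y` extends to the whole space with norm at most `C * ‖t‖`. -/
lemma local_ext {E : Type u} [NormedAddCommGroup E] [NormedSpace 𝕜 E] (hE : IsLInfty 𝕜 E)
    {X : Type u} [NormedAddCommGroup X] [NormedSpace 𝕜 X] (Y : Submodule 𝕜 X) (t : Y →L[𝕜] E) :
    ∃ M : ℝ, 0 ≤ M ∧ ∀ s : Finset Y, ∃ R : X →L[𝕜] E, (∀ z, ‖R z‖ ≤ M * ‖z‖) ∧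
      ∀ y ∈ s, R y = t y := by
  obtain ⟨lam, hlam, hE⟩ := hE
  refine ⟨(lam + 1) * ‖t‖, by positivity, fun s => ?_⟩
  set F0 : Submodule 𝕜 Y := Submodule.span 𝕜 (s : Set Y) with hF0
  have : FiniteDimensional 𝕜 F0 := FiniteDimensional.span_finset 𝕜 s
  obtain ⟨G, hFG, hG, hd⟩ := hE (F0.map (t : Y →ₗ[𝕜] E)) inferInstance
  generalize Module.finrank 𝕜 G = n at hd
  have hlt : bmDist 𝕜 G (Fin n → 𝕜) < ENNReal.ofReal (lam + 1) :=
    hd.trans_lt ((ENNReal.ofReal_lt_ofReal_iff (by linarith)).mpr (by linarith))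
  unfold bmDist at hlt
  obtain ⟨T, hT⟩ := iInf_lt_iff.mp hlt
  have hT' : ‖(T : G →L[𝕜] (Fin n → 𝕜))‖ * ‖(T.symm : (Fin n → 𝕜) →L[𝕜] G)‖ ≤ lam + 1 := by
    rw [← ofReal_norm, ← ofReal_norm, ← ENNReal.ofReal_mul (norm_nonneg _),
      ENNReal.ofReal_lt_ofReal_iff (by linarith)] at hT
    exact hT.le
  -- the subspace of X spanned by s
  set P : Submodule 𝕜 X := F0.map Y.subtype with hP
  have hPY : P ≤ Y := Submodule.map_subtype_le _ _
  have hmem : ∀ z : P, t ⟨z, hPY z.2⟩ ∈ G := by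
    intro z
    obtain ⟨y, hy, hyz⟩ := z.2
    apply hFG
    refine ⟨y, hy, ?_⟩
    exact congrArg t (Subtype.ext hyz)
  let incl : P →L[𝕜] Y := (P.subtypeL).codRestrict Y (fun z => hPY z.2)
  let tG : P →L[𝕜] G := (t.comp incl).codRestrict G hmem
  have htG : ∀ z : P, ‖tG z‖ ≤ ‖t‖ * ‖z‖ := fun z => t.le_opNorm (incl z)
  let φ : Fin n → StrongDual 𝕜 P := fun j =>
    (ContinuousLinearMap.proj j).comp ((T : G →L[𝕜] (Fin n → 𝕜)).comp tG)
  have hφ : ∀ j, ‖φ j‖ ≤ ‖(T : G →L[𝕜] (Fin n → 𝕜))‖ * ‖t‖ := by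
    intro j
    apply ContinuousLinearMap.opNorm_le_bound _ (by positivity)
    intro z
    calc ‖φ j z‖ ≤ ‖(T : G →L[𝕜] (Fin n → 𝕜)) (tG z)‖ := norm_le_pi_norm _ j
      _ ≤ ‖(T : G →L[𝕜] (Fin n → 𝕜))‖ * ‖tG z‖ := ContinuousLinearMap.le_opNorm _ _
      _ ≤ ‖(T : G →L[𝕜] (Fin n → 𝕜))‖ * (‖t‖ * ‖z‖) := by gcongr; exact htG z
      _ = _ := by ring
  choose ψ hψ hψn using fun j => exists_extension_norm_eq P (φ j)
  let S : X →L[𝕜] (Fin n → 𝕜) := ContinuousLinearMap.pi ψ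
  have hS : ∀ z, ‖S z‖ ≤ ‖(T : G →L[𝕜] (Fin n → 𝕜))‖ * ‖t‖ * ‖z‖ := by
    intro z
    rw [pi_norm_le_iff_of_nonneg (by positivity)]
    intro j
    calc ‖S z j‖ = ‖ψ j z‖ := rfl
      _ ≤ ‖ψ j‖ * ‖z‖ := ContinuousLinearMap.le_opNorm _ _
      _ ≤ _ := by rw [hψn]; gcongr; exact hφ j
  refine ⟨G.subtypeL.comp ((T.symm : (Fin n → 𝕜) →L[𝕜] G).comp S), fun z => ?_, fun y hy => ?_⟩
  · calc ‖(G.subtypeL.comp ((T.symm : (Fin n → 𝕜) →L[𝕜] G).comp S)) z‖
        = ‖(T.symm : (Fin n → 𝕜) →L[𝕜] G) (S z)‖ := rfl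
      _ ≤ ‖(T.symm : (Fin n → 𝕜) →L[𝕜] G)‖ * ‖S z‖ := ContinuousLinearMap.le_opNorm _ _
      _ ≤ ‖(T.symm : (Fin n → 𝕜) →L[𝕜] G)‖ * (‖(T : G →L[𝕜] (Fin n → 𝕜))‖ * ‖t‖ * ‖z‖) := by
          gcongr; exact hS z
      _ = (‖(T : G →L[𝕜] (Fin n → 𝕜))‖ * ‖(T.symm : (Fin n → 𝕜) →L[𝕜] G)‖) * (‖t‖ * ‖z‖) := by
          ring
      _ ≤ (lam + 1) * (‖t‖ * ‖z‖) := by gcongr
      _ = _ := by ring
  · have hyP : (y : X) ∈ P := ⟨y, Submodule.subset_span hy, rfl⟩
    have h1 : S y = T (tG ⟨y, hyP⟩) := by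
      funext j
      exact hψ j ⟨y, hyP⟩
    show ((T.symm (S y) : G) : E) = t y
    rw [h1, ContinuousLinearEquiv.symm_apply_apply]
    rfl

section Ultra

variable {I : Type u} (U : Ultrafilter I) {X : I → Type u} [∀ i, NormedAddCommGroup (X i)]
  [∀ i, NormedSpace 𝕜 (X i)]

lemma eventually_norm_lt (a : lp X ∞) {ε : ℝ} (hε : 0 < ε) :
    ∀ᶠ i in U, ‖a i‖ < ‖(Submodule.Quotient.mk a : Ultraproduct 𝕜 U X)‖ + ε := by
  obtain ⟨b, hb, hbn⟩ := Submodule.Quotient.norm_mk_lt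
    (Submodule.Quotient.mk a : Ultraproduct 𝕜 U X) (half_pos hε)
  have h1 : a - b ∈ c0U 𝕜 U X := (Submodule.Quotient.eq _).mp hb.symm
  have h2 : Tendsto (fun i => ‖(a - b) i‖) U (𝓝 0) := h1
  filter_upwards [Metric.tendsto_nhds.mp h2 (ε / 2) (half_pos hε)] with i hi
  rw [dist_zero_right, norm_norm] at hi
  have h3 : ‖b i‖ ≤ ‖b‖ := lp.norm_apply_le_norm ENNReal.top_ne_zero _ i
  have h4 : ‖a i‖ ≤ ‖(a - b) i‖ + ‖b i‖ := by
    simpa using norm_add_le ((a - b) i) (b i)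
  linarith

lemma mk_eq_of_eventually (a b : lp X ∞) (h : ∀ᶠ i in U, a i = b i) :
    (Submodule.Quotient.mk a : Ultraproduct 𝕜 U X) = Submodule.Quotient.mk b := by
  rw [Submodule.Quotient.eq]
  show Tendsto (fun i => ‖(a - b) i‖) U (𝓝 0)
  apply tendsto_const_nhds.congr'
  filter_upwards [h] with i hi
  simp [hi]

lemma norm_mk_le_of_eventually (a : lp X ∞) {r : ℝ} (hr : 0 ≤ r) (h : ∀ᶠ i in U, ‖a i‖ ≤ r) :
    ‖(Submodule.Quotient.mk a : Ultraproduct 𝕜 U X)‖ ≤ r := by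
  classical
  have hb : ∀ i, ‖(if ‖a i‖ ≤ r then a i else 0 : X i)‖ ≤ r := by
    intro i
    split_ifs with h
    · exact h
    · simpa using hr
  let b : lp X ∞ := ⟨fun i => if ‖a i‖ ≤ r then a i else 0,
    memℓp_infty ⟨r, by rintro _ ⟨i, rfl⟩; exact hb i⟩⟩
  have h1 : (Submodule.Quotient.mk a : Ultraproduct 𝕜 U X) = Submodule.Quotient.mk b := by
    apply mk_eq_of_eventually
    filter_upwards [h] with i hi
    show a i = if ‖a i‖ ≤ r then a i else 0
    rw [if_pos hi]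
  rw [h1]
  exact (Submodule.Quotient.norm_mk_le _ _).trans (lp.norm_le_of_forall_le hr hb)

/-- Uniformity over all coefficient vectors on a finite set. -/
lemma eventually_forall_coeff {K : Type*} (s : Finset K) (e : K → lp X ∞) {ε : ℝ} (hε : 0 < ε) :
    ∀ᶠ i in U, ∀ c : K → 𝕜, ‖∑ k ∈ s, c k • e k i‖ ≤
      ‖∑ k ∈ s, c k • (Submodule.Quotient.mk (e k) : Ultraproduct 𝕜 U X)‖
        + ε * ∑ k ∈ s, ‖c k‖ := by
  classical
  by_contra hcon
  rw [← Ultrafilter.eventually_not] at hcon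
  -- normalised bad coefficient vectors
  have hbad : ∀ᶠ i in U, ∃ c : K → 𝕜, ∑ k ∈ s, ‖c k‖ = 1 ∧
      ‖∑ k ∈ s, c k • (Submodule.Quotient.mk (e k) : Ultraproduct 𝕜 U X)‖ + ε
        < ‖∑ k ∈ s, c k • e k i‖ := by
    filter_upwards [hcon] with i hi
    push Not at hi
    obtain ⟨c, hc⟩ := hi
    set r := ∑ k ∈ s, ‖c k‖ with hr
    have hr0 : 0 ≤ r := Finset.sum_nonneg (fun _ _ => norm_nonneg _)
    have hrpos : 0 < r := by
      apply lt_of_le_of_ne hr0
      intro h0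
      have hz := (Finset.sum_eq_zero_iff_of_nonneg (fun _ _ => norm_nonneg _)).mp h0.symm
      have h1 : ∑ k ∈ s, c k • e k i = 0 :=
        Finset.sum_eq_zero (fun k hk => by rw [norm_eq_zero.mp (hz k hk), zero_smul])
      rw [h1, norm_zero, ← h0, mul_zero, add_zero] at hc
      exact absurd hc (not_lt.mpr (norm_nonneg _))
    have hn : ‖((r⁻¹ : ℝ) : 𝕜)‖ = r⁻¹ := by
      rw [RCLike.norm_ofReal, abs_of_pos (inv_pos.mpr hrpos)]
    refine ⟨fun k => ((r⁻¹ : ℝ) : 𝕜) * c k, ?_, ?_⟩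
    · simp only [norm_mul, hn]
      rw [← Finset.mul_sum, ← hr, inv_mul_cancel₀ hrpos.ne']
    · simp only [mul_smul]
      rw [← Finset.smul_sum, ← Finset.smul_sum, norm_smul, norm_smul, hn]
      have := mul_lt_mul_of_pos_left hc (inv_pos.mpr hrpos)
      rw [mul_add, mul_left_comm, inv_mul_cancel₀ hrpos.ne', mul_one] at this
      exact this
  have hch : ∀ i, ∃ c : K → 𝕜, (∀ k ∈ s, ‖c k‖ ≤ 1) ∧ ((∃ c : K → 𝕜, ∑ k ∈ s, ‖c k‖ = 1 ∧
      ‖∑ k ∈ s, c k • (Submodule.Quotient.mk (e k) : Ultraproduct 𝕜 U X)‖ + ε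
        < ‖∑ k ∈ s, c k • e k i‖) →
      ‖∑ k ∈ s, c k • (Submodule.Quotient.mk (e k) : Ultraproduct 𝕜 U X)‖ + ε
        < ‖∑ k ∈ s, c k • e k i‖) := by
    intro i
    by_cases h : ∃ c : K → 𝕜, ∑ k ∈ s, ‖c k‖ = 1 ∧
      ‖∑ k ∈ s, c k • (Submodule.Quotient.mk (e k) : Ultraproduct 𝕜 U X)‖ + ε
        < ‖∑ k ∈ s, c k • e k i‖
    · obtain ⟨c, h1, h2⟩ := h
      refine ⟨c, fun k hk => ?_, fun _ => h2⟩
      rw [← h1]
      exact Finset.single_le_sum (f := fun k => ‖c k‖) (fun _ _ => norm_nonneg _) hk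
    · exact ⟨0, fun _ _ => by simp, fun h' => absurd h' h⟩
  choose c hc1 hc2 using hch
  have hlim : ∀ k, ∃ d : 𝕜, k ∈ s → Tendsto (fun i => c i k) U (𝓝 d) := by
    intro k
    by_cases hk : k ∈ s
    · obtain ⟨d, -, hd⟩ := (isCompact_closedBall (0 : 𝕜) 1).ultrafilter_le_nhds
        (U.map (fun i => c i k)) (by
          rw [Ultrafilter.coe_map, le_principal_iff, mem_map]
          exact Eventually.of_forall (fun i => by simpa using hc1 i k hk))
      exact ⟨d, fun _ => hd⟩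
    · exact ⟨0, fun h => absurd h hk⟩
  choose d hd using hlim
  have t1 : Tendsto (fun i => ‖∑ k ∈ s, c i k • (Submodule.Quotient.mk (e k) : Ultraproduct 𝕜 U X)‖)
      U (𝓝 ‖∑ k ∈ s, d k • (Submodule.Quotient.mk (e k) : Ultraproduct 𝕜 U X)‖) :=
    (tendsto_finsetSum s (fun k hk => (hd k hk).smul_const _)).norm
  have t2 : Tendsto (fun i => ∑ k ∈ s, ‖c i k - d k‖ * ‖e k‖) U (𝓝 0) := by
    have := tendsto_finsetSum s (fun k hk =>
      (((hd k hk).sub_const (d k)).norm.mul_const ‖e k‖))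
    simpa using this
  have t3 := eventually_norm_lt (𝕜 := 𝕜) U (∑ k ∈ s, d k • e k) (show 0 < ε / 3 by positivity)
  have e1 : (Submodule.Quotient.mk (∑ k ∈ s, d k • e k) : Ultraproduct 𝕜 U X)
      = ∑ k ∈ s, d k • (Submodule.Quotient.mk (e k) : Ultraproduct 𝕜 U X) := by
    simp only [← Submodule.mkQ_apply, map_sum, map_smul]
  rw [e1] at t3
  have : ∀ᶠ _i in (U : Filter I), False := by
    filter_upwards [hbad, Metric.tendsto_nhds.mp t1 (ε / 3) (by positivity),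
      Metric.tendsto_nhds.mp t2 (ε / 3) (by positivity), t3] with i h1 h2 h3 h4
    have h5 := hc2 i h1
    rw [Real.dist_eq, abs_lt] at h2 h3
    have e2 : (∑ k ∈ s, d k • e k : lp X ∞) i = ∑ k ∈ s, d k • e k i := by
      rw [lp.coeFn_sum, Finset.sum_apply]
      rfl
    rw [e2] at h4
    have h6 : ‖∑ k ∈ s, c i k • e k i‖
        ≤ ‖∑ k ∈ s, d k • e k i‖ + ∑ k ∈ s, ‖c i k - d k‖ * ‖e k‖ := by
      have : ∑ k ∈ s, c i k • e k i
          = ∑ k ∈ s, d k • e k i + ∑ k ∈ s, (c i k - d k) • e k i := by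
        rw [← Finset.sum_add_distrib]
        exact Finset.sum_congr rfl (fun k _ => by rw [sub_smul]; abel)
      rw [this]
      refine (norm_add_le _ _).trans ?_
      gcongr
      refine (norm_sum_le _ _).trans (Finset.sum_le_sum (fun k _ => ?_))
      rw [norm_smul]
      gcongr
      exact lp.norm_apply_le_norm ENNReal.top_ne_zero _ i
    linarith [h2.1, h3.2]
  exact (Ultrafilter.neBot U).ne (eventually_false_iff_eq_bot.mp this)

end Ultra

end Pool.Agent.MP_17402e_an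

end MrgPart0

-- ======== part 1: formerly Pool.Agent.MP_17402e_an.Satur
section MrgPart1

/-!
The saturation argument for good countably incomplete ultrafilters, in many variables at once.
-/

set_option autoImplicit false

universe u

namespace Pool.Agent.MP_17402e_an

open Filter Topology
open scoped ENNReal

variable {𝕜 : Type} [RCLike 𝕜]

/-- Approximate solution in one coordinate space. -/
def Wit {K V Z : Type*} [NormedAddCommGroup V] [NormedSpace 𝕜 V] [NormedAddCommGroup Z]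
    [NormedSpace 𝕜 Z] (x : K → Z) (M : ℝ) (S : Set K) (τ : K → V) (s : Finset K) (ε : ℝ)
    (a : K → V) : Prop :=
  (∀ c : K → 𝕜, ‖∑ k ∈ s, c k • a k‖ ≤ M * ‖∑ k ∈ s, c k • x k‖ + ε * ∑ k ∈ s, ‖c k‖) ∧
    ∀ k ∈ s, k ∈ S → a k = τ k

lemma Wit.mono {K V Z : Type*} [NormedAddCommGroup V] [NormedSpace 𝕜 V] [NormedAddCommGroup Z]
    [NormedSpace 𝕜 Z] {x : K → Z} {M : ℝ} {S : Set K} {τ : K → V} {s s' : Finset K} {ε ε' : ℝ}
    {a : K → V} (h : Wit (𝕜 := 𝕜) x M S τ s' ε' a) (hs : s ⊆ s') (hε : ε' ≤ ε) :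
    Wit (𝕜 := 𝕜) x M S τ s ε a := by
  classical
  refine ⟨fun c => ?_, fun k hk => h.2 k (hs hk)⟩
  have h1 := h.1 (fun k => if k ∈ s then c k else 0)
  have e1 : ∑ k ∈ s', (if k ∈ s then c k else 0) • a k = ∑ k ∈ s, c k • a k := by
    rw [← Finset.sum_subset hs (fun k _ hk => by rw [if_neg hk, zero_smul])]
    exact Finset.sum_congr rfl (fun k hk => by rw [if_pos hk])
  have e2 : ∑ k ∈ s', (if k ∈ s then c k else 0) • x k = ∑ k ∈ s, c k • x k := by
    rw [← Finset.sum_subset hs (fun k _ hk => by rw [if_neg hk, zero_smul])]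
    exact Finset.sum_congr rfl (fun k hk => by rw [if_pos hk])
  have e3 : ∑ k ∈ s', ‖(if k ∈ s then c k else 0)‖ = ∑ k ∈ s, ‖c k‖ := by
    rw [← Finset.sum_subset hs (fun k _ hk => by rw [if_neg hk, norm_zero])]
    exact Finset.sum_congr rfl (fun k hk => by rw [if_pos hk])
  rw [e1, e2, e3] at h1
  have h2 : 0 ≤ ∑ k ∈ s, ‖c k‖ := Finset.sum_nonneg (fun _ _ => norm_nonneg _)
  nlinarith [mul_le_mul_of_nonneg_right hε h2]

lemma saturation {I : Type u} (U : Ultrafilter I) {X : I → Type u} [∀ i, NormedAddCommGroup (X i)]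
    [∀ i, NormedSpace 𝕜 (X i)] (hinc : CountablyIncomplete U) {K : Type*} [DecidableEq K]
    [Infinite K]
    (hgood : ∀ f : Finset K → Set I, (∀ s, f s ∈ U) → (∀ s t, s ⊆ t → f t ⊆ f s) →
      ∃ g : Finset K → Set I, (∀ s, g s ∈ U) ∧ (∀ s, g s ⊆ f s) ∧ ∀ s t, g (s ∪ t) = g s ∩ g t)
    {Z : Type*} [NormedAddCommGroup Z] [NormedSpace 𝕜 Z] (x : K → Z) (M : ℝ) (hM : 0 ≤ M)
    (S : Set K) (τ : K → Ultraproduct 𝕜 U X)
    (hfin : ∀ s : Finset K, ∃ e : K → Ultraproduct 𝕜 U X,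
      (∀ c : K → 𝕜, ‖∑ k ∈ s, c k • e k‖ ≤ M * ‖∑ k ∈ s, c k • x k‖) ∧
        ∀ k ∈ s, k ∈ S → e k = τ k) :
    ∃ e : K → Ultraproduct 𝕜 U X, (∀ (s : Finset K) (c : K → 𝕜),
      ‖∑ k ∈ s, c k • e k‖ ≤ M * ‖∑ k ∈ s, c k • x k‖) ∧ ∀ k ∈ S, e k = τ k := by
  classical
  obtain ⟨A, hA, hAU, hA0⟩ := hinc
  choose rep hrep using fun z : Ultraproduct 𝕜 U X => Submodule.Quotient.mk_surjective _ z
  have claimA : ∀ (s : Finset K) (ε : ℝ), 0 < ε →
      {i | ∃ a : K → X i, Wit (𝕜 := 𝕜) x M S (fun k => rep (τ k) i) s ε a} ∈ U := by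
    intro s ε hε
    obtain ⟨e, he1, he2⟩ := hfin s
    have h := eventually_forall_coeff (𝕜 := 𝕜) U s (fun k => rep (e k)) hε
    simp only [hrep] at h
    have : ∀ᶠ i in (U : Filter I),
        ∃ a : K → X i, Wit (𝕜 := 𝕜) x M S (fun k => rep (τ k) i) s ε a := by
      filter_upwards [h] with i hi
      refine ⟨fun k => rep (e k) i, fun c => (hi c).trans ?_, fun k hk hkS => ?_⟩
      · linarith [he1 c]
      · beta_reduce
        rw [he2 k hk hkS]
    exact this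
  obtain ⟨g, hgU, hgf, hgm⟩ := hgood
    (fun s => A s.card ∩ {i | ∃ a : K → X i,
      Wit (𝕜 := 𝕜) x M S (fun k => rep (τ k) i) s (1 / ((s.card : ℝ) + 1)) a})
    (fun s => inter_mem (hAU _) (claimA s _ (by positivity)))
    (fun s t hst i hi => by
      obtain ⟨h1, a, ha⟩ := hi
      refine ⟨hA (Finset.card_le_card hst) h1, a, ha.mono hst ?_⟩
      have : (s.card : ℝ) ≤ t.card := by exact_mod_cast Finset.card_le_card hst
      exact one_div_le_one_div_of_le (by positivity) (by linarith))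
  have g_of : ∀ (i : I) (s : Finset K), s.Nonempty → (∀ k ∈ s, i ∈ g {k}) → i ∈ g s := by
    intro i s hs
    induction hs using Finset.Nonempty.cons_induction with
    | singleton a => intro h; exact h a (Finset.mem_singleton_self a)
    | cons a s ha hs ih =>
      intro h
      rw [Finset.cons_eq_insert, Finset.insert_eq, hgm]
      exact ⟨h a (Finset.mem_cons_self _ _), ih (fun k hk => h k (Finset.mem_cons_of_mem hk))⟩
  have of_g : ∀ (i : I) (s : Finset K), i ∈ g s → ∀ k ∈ s, i ∈ g {k} := by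
    intro i s hi k hk
    have : s ∪ {k} = s := Finset.union_eq_left.mpr (Finset.singleton_subset_iff.mpr hk)
    rw [← this, hgm] at hi
    exact hi.2
  have hfinite : ∀ i : I, {k | i ∈ g {k}}.Finite := by
    intro i
    by_contra hinf
    have : i ∈ ⋂ n, A n := by
      rw [Set.mem_iInter]
      intro n
      obtain ⟨s, hs, hcard⟩ := (Set.not_finite.mp hinf).exists_subset_card_eq (n + 1)
      have h1 := g_of i s (Finset.card_pos.mp (by omega)) (fun k hk => hs hk)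
      have h2 := (hgf s h1).1
      rw [hcard] at h2
      exact hA (Nat.le_succ n) h2
    rw [hA0] at this
    exact this
  set σ : I → Finset K := fun i => (hfinite i).toFinset with hσ
  have hσmem : ∀ i k, k ∈ σ i ↔ i ∈ g {k} := fun i k => by simp [hσ]
  have hch : ∀ i, ∃ a : K → X i, (∀ k, ‖a k‖ ≤ M * ‖x k‖ + 1) ∧ ((σ i).Nonempty →
      Wit (𝕜 := 𝕜) x M S (fun k => rep (τ k) i) (σ i) (1 / (((σ i).card : ℝ) + 1)) a) := by
    intro i
    by_cases hne : (σ i).Nonempty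
    · obtain ⟨a, ha⟩ := (hgf _ (g_of i _ hne (fun k hk => (hσmem i k).mp hk))).2
      refine ⟨fun k => if k ∈ σ i then a k else 0, fun k => ?_, fun _ => ⟨fun c => ?_, ?_⟩⟩
      · beta_reduce
        split_ifs with hk
        · have h1 := (ha.mono (Finset.singleton_subset_iff.mpr hk) (ε := 1) (by
            rw [div_le_one (by positivity)]
            linarith [Nat.cast_nonneg (α := ℝ) (σ i).card])).1 (fun _ => 1)
          simpa using h1
        · rw [norm_zero]; positivity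
      · have : ∑ k ∈ σ i, c k • (if k ∈ σ i then a k else 0) = ∑ k ∈ σ i, c k • a k :=
          Finset.sum_congr rfl (fun k hk => by rw [if_pos hk])
        rw [this]
        exact ha.1 c
      · intro k hk hkS
        simp only [if_pos hk]
        exact ha.2 k hk hkS
    · exact ⟨0, fun k => by rw [Pi.zero_apply, norm_zero]; positivity, fun h => absurd h hne⟩
  choose a hab haw using hch
  let e' : K → lp X ∞ := fun k => ⟨fun i => a i k,
    memℓp_infty ⟨M * ‖x k‖ + 1, by rintro _ ⟨i, rfl⟩; exact hab i k⟩⟩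
  refine ⟨fun k => Submodule.Quotient.mk (e' k), fun s c => ?_, fun k hk => ?_⟩
  · have e1 : (Submodule.Quotient.mk (∑ k ∈ s, c k • e' k) : Ultraproduct 𝕜 U X)
        = ∑ k ∈ s, c k • (Submodule.Quotient.mk (e' k) : Ultraproduct 𝕜 U X) := by
      simp only [← Submodule.mkQ_apply, map_sum, map_smul]
    rw [← e1]
    have h0 : 0 ≤ ∑ k ∈ s, ‖c k‖ := Finset.sum_nonneg (fun _ _ => norm_nonneg _)
    have hn : ∀ n : ℕ, ‖(Submodule.Quotient.mk (∑ k ∈ s, c k • e' k) : Ultraproduct 𝕜 U X)‖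
        ≤ M * ‖∑ k ∈ s, c k • x k‖ + 1 / ((n : ℝ) + 1) * ∑ k ∈ s, ‖c k‖ := by
      intro n
      apply norm_mk_le_of_eventually U _ (by positivity)
      obtain ⟨s', hs', hcard⟩ := Infinite.exists_superset_card_eq s (s.card + n + 1) (by omega)
      have hgs : ∀ᶠ i in (U : Filter I), i ∈ g s' := hgU s'
      filter_upwards [hgs] with i hi
      have hsub : s' ⊆ σ i := fun k hk => (hσmem i k).mpr (of_g i s' hi k hk)
      have hle := Finset.card_le_card hsub
      have hw := (haw i (Finset.card_pos.mp (by omega))).mono (hs'.trans hsub)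
        (ε := 1 / ((n : ℝ) + 1)) (by
          have : (n : ℝ) ≤ (σ i).card := by exact_mod_cast (show n ≤ (σ i).card by omega)
          exact one_div_le_one_div_of_le (by positivity) (by linarith))
      have e2 : (∑ k ∈ s, c k • e' k : lp X ∞) i = ∑ k ∈ s, c k • a i k := by
        rw [lp.coeFn_sum, Finset.sum_apply]
        rfl
      rw [e2]
      exact hw.1 c
    have ht : Tendsto (fun n : ℕ => M * ‖∑ k ∈ s, c k • x k‖ + 1 / ((n : ℝ) + 1) * ∑ k ∈ s, ‖c k‖)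
        atTop (𝓝 (M * ‖∑ k ∈ s, c k • x k‖ + 0 * ∑ k ∈ s, ‖c k‖)) :=
      (tendsto_one_div_add_atTop_nhds_zero_nat.mul_const _).const_add _
    rw [zero_mul, add_zero] at ht
    exact ge_of_tendsto' ht hn
  · rw [← hrep (τ k)]
    apply mk_eq_of_eventually
    have hgs : ∀ᶠ i in (U : Filter I), i ∈ g {k} := hgU {k}
    filter_upwards [hgs] with i hi
    have hk' := (hσmem i k).mpr hi
    exact (haw i ⟨k, hk'⟩).2 k hk' hk

end Pool.Agent.MP_17402e_an

end MrgPart1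

-- marker of a merged file
example : 731051 + 562853 = 731051 + 562853 := rfl
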